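import Pool.Agent.H883R2.OL.Problem
import Pool.Agent.H883R2.OL.Lay2
import Pool.Agent.H883R2.OL.Logic
import Pool.Agent.Y578.OL.Main

/-!
# Finding a light outerplane Laman graph is NP-hard in the strong sense

The decision version of the minimum-weight outerplane Laman graph problem is NP-hard even when all
the numbers in the input (the coordinates, which are natural numbers, and the bound) are written in
unary and the points are pairwise different.
-/

set_option autoImplicit false

namespace Pool.Agent.Results.MP_17cbde_lc.UnaryCoordinates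

open Pool.Agent.NPC Pool.Agent.H883R2.OL Pool.Agent.Y578.OL

/-- Correctness of the layout. -/
theorem equiv (K m : ℕ) (inc : ℕ → ℕ → Bool) (hK : 2 ≤ K) (hK2 : K % 2 = 0) (hm : 1 ≤ m) (N : ℕ)
    (hN : N = 100 * ((K + 6 * m + 4) * (5 * K))) :
    (∃ σ, Sats K m inc σ) ↔
      ∃ E, OuterplaneLaman (pts N (kd K m inc) (cells K m inc)) E ∧
        weight E ≤ (thr N (kd K m inc) (cells K m inc) : ℝ) := by
  have hA : 120 ≤ (K + 6 * m + 4) * (5 * K) :=
    calc 120 = 12 * 10 := rfl
      _ ≤ (K + 6 * m + 4) * (5 * K) := Nat.mul_le_mul (by omega) (by omega)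
  have hc : (cells K m inc).card ≤ (K + 6 * m + 4) * (5 * K) := by
    unfold cells
    refine (Finset.card_filter_le _ _).trans ?_
    rw [Finset.card_product, Finset.card_range, Finset.card_range]
  constructor
  · rintro ⟨σ, hσ⟩
    obtain ⟨T, h1, h2⟩ := exists_light K m inc hK hK2 hm N (by omega) σ hσ
    exact ⟨edges T, Or.inr ⟨T, h1, rfl⟩, h2⟩
  · rintro ⟨E, h1 | ⟨T, h1, rfl⟩, h2⟩
    · exfalso
      have hroot : (0, 1) ∈ cells K m inc := by
        rw [mem_cells, Pool.Agent.H883R2.OL.kd_root K m inc hK]; norm_num
      have hsub : cpts N (kd K m inc) (0, 1) ⊆ pts N (kd K m inc) (cells K m inc) := by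
        intro P hP
        exact mem_pts.2 ⟨(0, 1), hroot, hP⟩
      have h3 := Finset.card_le_card hsub
      rw [card_cpts, Pool.Agent.H883R2.OL.kd_root K m inc hK, h1.1] at h3
      have h4 : (offs 1).length = 4 := rfl
      omega
    · obtain ⟨Lk, hL⟩ := linkRel_of_light K m inc hK N (by omega) T h1 h2
      exact sat_of_linkRel K m inc hK hK2 hm hL

/-- The decision version of the minimum-weight outerplane Laman graph problem is strongly NP-hard:
given a finite set of points, whose coordinates are natural numbers written in unary, and a number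
`W` written in unary, it is NP-hard to decide whether there is an outerplane Laman graph on the set
of weight at most `W`. -/
theorem result : NPHardOn Distinct MinLamanUnary :=
  npHardOn_of_equiv (fun K m inc hK hK2 hm N hN => equiv K m inc hK hK2 hm N hN)

end Pool.Agent.Results.MP_17cbde_lc.UnaryCoordinates
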